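import Mathlib

set_option autoImplicit false

namespace Pool.Agent.Results.MP_b6d645_co.NotUnimodal

open Finset

/-- The number of stable (independent) sets of G with exactly k vertices. -/
noncomputable def stableCount {V : Type} (G : SimpleGraph V) (k : ℕ) : ℕ :=
  {s : Finset V | G.IsIndepSet (s : Set V) ∧ s.card = k}.ncard

/-- G has no isolated vertex and every maximal stable set has exactly half of the vertices. -/
def VeryWellCovered {V : Type} [Fintype V] (G : SimpleGraph V) : Prop :=
  (∀ v : V, ∃ w : V, G.Adj v w) ∧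
  ∀ s : Finset V, Maximal (fun t : Finset V => G.IsIndepSet (t : Set V)) s →
    2 * s.card = Fintype.card V

/-- A sequence that first weakly increases and then weakly decreases. -/
def IsUnimodal (f : ℕ → ℕ) : Prop :=
  ∃ m : ℕ, (∀ i : ℕ, i < m → f i ≤ f (i + 1)) ∧ (∀ i : ℕ, m ≤ i → f (i + 1) ≤ f i)


/-- The corona of a graph H on W: attach one pendant vertex to every vertex. -/
def corona {W : Type} (H : SimpleGraph W) : SimpleGraph (W ⊕ W) where
  Adj x y := match x, y with
    | Sum.inl v, Sum.inl w => H.Adj v w
    | Sum.inl v, Sum.inr w => v = w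
    | Sum.inr v, Sum.inl w => v = w
    | Sum.inr _, Sum.inr _ => False
  symm := ⟨by
    rintro (v | v) (w | w) h
    · exact SimpleGraph.Adj.symm h
    · exact h.symm
    · exact h.symm
    · exact h⟩
  loopless := ⟨by
    rintro (v | v) h
    · exact H.irrefl h
    · exact h⟩

section Corona
variable {W : Type} (H : SimpleGraph W)

@[simp] lemma corona_ll (v w : W) : (corona H).Adj (Sum.inl v) (Sum.inl w) ↔ H.Adj v w := Iff.rfl
@[simp] lemma corona_lr (v w : W) : (corona H).Adj (Sum.inl v) (Sum.inr w) ↔ v = w := Iff.rfl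
@[simp] lemma corona_rl (v w : W) : (corona H).Adj (Sum.inr v) (Sum.inl w) ↔ v = w := Iff.rfl
@[simp] lemma corona_rr (v w : W) : (corona H).Adj (Sum.inr v) (Sum.inr w) ↔ False := Iff.rfl

lemma indep_iff (s : Finset (W ⊕ W)) :
    (corona H).IsIndepSet (s : Set (W ⊕ W)) ↔
      H.IsIndepSet (s.toLeft : Set W) ∧ Disjoint s.toLeft s.toRight := by
  constructor
  · intro h
    refine ⟨?_, ?_⟩
    · intro v hv w hw hvw hadj
      have hv' : Sum.inl v ∈ s := by simpa using hv
      have hw' : Sum.inl w ∈ s := by simpa using hw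
      exact h hv' hw' (by simpa using hvw) ((corona_ll H v w).2 hadj)
    · rw [Finset.disjoint_left]
      intro v hv hv2
      have hv' : Sum.inl v ∈ s := by simpa using hv
      have hw' : Sum.inr v ∈ s := by simpa using hv2
      exact h hv' hw' (by simp) ((corona_lr H v v).2 rfl)
  · rintro ⟨h1, h2⟩
    rw [Finset.disjoint_left] at h2
    rintro (v | v) hv (w | w) hw hvw hadj
    · exact h1 (by simpa using hv) (by simpa using hw) (by simpa using hvw) hadj
    · have : v = w := hadj
      subst this
      exact h2 (by simpa using hv) (by simpa using hw)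
    · have : v = w := hadj
      subst this
      exact h2 (by simpa using hw) (by simpa using hv)
    · exact hadj

lemma no_isolated (v : W ⊕ W) : ∃ w, (corona H).Adj v w := by
  rcases v with v | v
  · exact ⟨Sum.inr v, rfl⟩
  · exact ⟨Sum.inl v, rfl⟩

lemma card_maximal [Fintype W] [DecidableEq W] (s : Finset (W ⊕ W))
    (h1 : (corona H).IsIndepSet (s : Set (W ⊕ W)))
    (h2 : ∀ v, v ∉ s → ¬ (corona H).IsIndepSet (insert v (s : Set (W ⊕ W)))) :
    s.card = Fintype.card W := by
  have hd := ((indep_iff H s).1 h1).2
  have hu : s.toLeft ∪ s.toRight = Finset.univ := by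
    ext w
    simp only [mem_union, mem_toLeft, mem_toRight, mem_univ, iff_true]
    by_contra hcon
    push Not at hcon
    obtain ⟨hl, hr⟩ := hcon
    apply h2 _ hr
    have : (insert (Sum.inr w) (s : Set (W ⊕ W))) = ((insert (Sum.inr w) s : Finset (W ⊕ W)) : Set (W ⊕ W)) := by
      simp
    rw [this, indep_iff]
    refine ⟨?_, ?_⟩
    · rw [toLeft_insert_inr]
      exact ((indep_iff H s).1 h1).1
    · rw [toLeft_insert_inr, toRight_insert_inr, Finset.disjoint_insert_right]
      exact ⟨by simpa using hl, hd⟩
  rw [← card_toLeft_add_card_toRight, ← Finset.card_union_of_disjoint hd, hu, Finset.card_univ]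

lemma pendants_max [Fintype W] [DecidableEq W] :
    (corona H).IsIndepSet (((Finset.univ : Finset W).map Function.Embedding.inr : Finset (W ⊕ W)) : Set (W ⊕ W)) ∧
    (∀ v, v ∉ ((Finset.univ : Finset W).map Function.Embedding.inr : Finset (W ⊕ W)) →
      ¬ (corona H).IsIndepSet (insert v (((Finset.univ : Finset W).map Function.Embedding.inr : Finset (W ⊕ W)) : Set (W ⊕ W)))) := by
  constructor
  · rintro (v | v) hv (w | w) hw hvw
    · simp at hv
    · simp at hv
    · simp at hw
    · simp
  · rintro (v | v) hv hind
    · have hr : (Sum.inr v : W ⊕ W) ∈ insert (Sum.inl v : W ⊕ W)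
          (((Finset.univ : Finset W).map Function.Embedding.inr : Finset (W ⊕ W)) : Set (W ⊕ W)) := by
        simp
      exact hind (Set.mem_insert (Sum.inl v) _) hr (by simp) rfl
    · simp at hv

/-- weighted count of independent sets of the corona -/
lemma sum_corona [Fintype W] [DecidableEq W] (B : ℕ) [DecidablePred fun s : Finset (W ⊕ W) => (corona H).IsIndepSet (s : Set (W ⊕ W))]
    [DecidablePred fun s : Finset W => H.IsIndepSet (s : Set W)] :
    ∑ s ∈ (Finset.univ : Finset (Finset (W ⊕ W))).filter (fun s : Finset (W ⊕ W) => (corona H).IsIndepSet (s : Set (W ⊕ W))), B ^ s.card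
    = ∑ A ∈ (Finset.univ : Finset (Finset W)).filter (fun s : Finset W => H.IsIndepSet (s : Set W)),
        B ^ A.card * (B + 1) ^ (Fintype.card W - A.card) := by
  have key : ∀ A : Finset W, B ^ A.card * (B + 1) ^ (Fintype.card W - A.card) =
      ∑ C ∈ (Aᶜ).powerset, B ^ (A.card + C.card) := by
    intro A
    have := Finset.sum_pow_mul_eq_add_pow B 1 (Aᶜ)
    rw [← Finset.card_compl, ← this, Finset.mul_sum]
    apply Finset.sum_congr rfl
    intro C _
    rw [one_pow, mul_one, pow_add]
  simp_rw [key]
  rw [Finset.sum_sigma']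
  refine Finset.sum_bij' (fun s _ => (⟨s.toLeft, s.toRight⟩ : (_ : Finset W) × Finset W))
    (fun p _ => p.1.disjSum p.2) ?_ ?_ ?_ ?_ ?_
  · intro s hs
    rw [Finset.mem_filter, indep_iff] at hs
    simp only [mem_sigma, mem_filter, mem_univ, true_and, mem_powerset]
    refine ⟨hs.2.1, ?_⟩
    rw [Finset.subset_compl_iff_disjoint_left]
    exact hs.2.2
  · rintro ⟨A, C⟩ hp
    simp only [mem_sigma, mem_filter, mem_univ, true_and, mem_powerset] at hp
    rw [Finset.mem_filter, indep_iff]
    simp only [toLeft_disjSum, toRight_disjSum, mem_univ, true_and]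
    refine ⟨hp.1, ?_⟩
    rw [← Finset.subset_compl_iff_disjoint_left]
    exact hp.2
  · intro s _
    exact toLeft_disjSum_toRight
  · rintro ⟨A, C⟩ _
    simp
  · intro s _
    simp only [card_toLeft_add_card_toRight]

end Corona


/-- partial transversals of Fin a × Fin t: at most one element with each first coordinate -/
def PT {a t : ℕ} (A : Finset (Fin a × Fin t)) : Prop :=
  ∀ i p q, (i, p) ∈ A → (i, q) ∈ A → p = q

lemma card_graph {a t : ℕ} (f : Fin a → Option (Fin t)) :
    ((Finset.univ : Finset (Fin a × Fin t)).filter (fun x => f x.1 = some x.2)).card =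
      ((Finset.univ : Finset (Fin a)).filter (fun i => ¬ f i = none)).card := by
  rw [Finset.card_filter, Finset.card_filter, Fintype.sum_prod_type]
  apply Finset.sum_congr rfl
  intro i _
  rcases h : f i with _ | q
  · simp [h]
  · simp [h]

lemma sum_PT {a t : ℕ} (X Y : ℕ) [DecidablePred (PT : Finset (Fin a × Fin t) → Prop)] :
    ∑ A ∈ (Finset.univ : Finset (Finset (Fin a × Fin t))).filter PT, X ^ A.card * Y ^ (a - A.card)
      = (Y + t * X) ^ a := by
  have h1 : (Y + t * X) ^ a = ∑ f : Fin a → Option (Fin t), ∏ i, (if f i = none then Y else X) := by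
    rw [← Fintype.sum_pow (fun o : Option (Fin t) => if o = none then Y else X)]
    rw [Fintype.sum_option]
    simp
  rw [h1]
  symm
  refine Finset.sum_bij (fun f _ => (Finset.univ : Finset (Fin a × Fin t)).filter (fun x => f x.1 = some x.2))
    ?_ ?_ ?_ ?_
  · intro f _
    rw [Finset.mem_filter]
    refine ⟨Finset.mem_univ _, ?_⟩
    intro i p q hp hq
    simp only [Finset.mem_filter, Finset.mem_univ, true_and] at hp hq
    rw [hp] at hq
    exact Option.some.inj hq
  · intro f _ g _ hfg
    funext i
    apply Option.ext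
    intro p
    have := Finset.ext_iff.1 hfg (i, p)
    simpa using this
  · intro A hA
    rw [Finset.mem_filter] at hA
    have hA := hA.2
    classical
    refine ⟨fun i => if h : ∃ p, (i, p) ∈ A then some h.choose else none, Finset.mem_univ _, ?_⟩
    ext ⟨i, p⟩
    simp only [Finset.mem_filter, Finset.mem_univ, true_and]
    constructor
    · intro h
      split_ifs at h with hex
      have h2 := hex.choose_spec
      rw [Option.some.inj h] at h2
      exact h2
    · intro h
      have hex : ∃ p, (i, p) ∈ A := ⟨p, h⟩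
      rw [dif_pos hex]
      congr 1
      exact hA i _ _ hex.choose_spec h
  · intro f _
    rw [Finset.prod_ite, Finset.prod_const, Finset.prod_const, card_graph, mul_comm]
    congr 2
    have := Finset.card_filter_add_card_filter_not (s := (Finset.univ : Finset (Fin a))) (fun i => f i = none)
    simp only [Finset.card_univ, Fintype.card_fin] at this
    omega

/-- the join of m isolated vertices with a disjoint union of a cliques of size t -/
def base (m a t : ℕ) : SimpleGraph (Fin m ⊕ (Fin a × Fin t)) where
  Adj x y := match x, y with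
    | Sum.inl _, Sum.inl _ => False
    | Sum.inl _, Sum.inr _ => True
    | Sum.inr _, Sum.inl _ => True
    | Sum.inr u, Sum.inr v => u.1 = v.1 ∧ u.2 ≠ v.2
  symm := ⟨by
    rintro (v | v) (w | w) h
    · exact h
    · exact h
    · exact h
    · exact ⟨h.1.symm, h.2.symm⟩⟩
  loopless := ⟨by
    rintro (v | v) h
    · exact h
    · exact h.2 rfl⟩

lemma base_indep_iff {m a t : ℕ} (A : Finset (Fin m ⊕ (Fin a × Fin t))) :
    (base m a t).IsIndepSet (A : Set _) ↔ (A.toRight = ∅ ∨ (A.toLeft = ∅ ∧ PT A.toRight)) := by
  constructor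
  · intro h
    by_cases hr : A.toRight = ∅
    · exact Or.inl hr
    · right
      obtain ⟨x, hx⟩ := Finset.nonempty_iff_ne_empty.2 hr
      rw [mem_toRight] at hx
      refine ⟨?_, ?_⟩
      · by_contra hl
        obtain ⟨y, hy⟩ := Finset.nonempty_iff_ne_empty.2 hl
        rw [mem_toLeft] at hy
        exact h hy hx (by simp) trivial
      · intro i p q hp hq
        rw [mem_toRight] at hp hq
        by_contra hpq
        exact h hp hq (by simpa using hpq) ⟨rfl, hpq⟩
  · rintro (h | ⟨h1, h2⟩)
    · rintro (v | v) hv (w | w) hw hvw hadj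
      · exact hadj
      · have : w ∈ A.toRight := by simpa using hw
        simp [h] at this
      · have : v ∈ A.toRight := by simpa using hv
        simp [h] at this
      · have : v ∈ A.toRight := by simpa using hv
        simp [h] at this
    · rintro (v | v) hv (w | w) hw hvw hadj
      · exact hadj
      · have : v ∈ A.toLeft := by simpa using hv
        simp [h1] at this
      · have : w ∈ A.toLeft := by simpa using hw
        simp [h1] at this
      · obtain ⟨i, p⟩ := v
        obtain ⟨j, q⟩ := w
        obtain ⟨hij, hpq⟩ := hadj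
        simp only at hij hpq
        subst hij
        exact hpq (h2 i p q (by simpa using hv) (by simpa using hw))

lemma card_PT {a t : ℕ} (A : Finset (Fin a × Fin t)) (h : PT A) : A.card ≤ a := by
  have : (A.image Prod.fst).card = A.card := by
    apply Finset.card_image_of_injOn
    rintro ⟨i, p⟩ hp ⟨j, q⟩ hq hij
    simp only at hij
    subst hij
    rw [h i p q (by simpa using hp) (by simpa using hq)]
  rw [← this]
  exact (Finset.card_le_univ _).trans (by simp)

lemma sum_base (m a t X Y : ℕ) (ht : 1 ≤ t)
    [DecidablePred fun s : Finset (Fin m ⊕ (Fin a × Fin t)) => (base m a t).IsIndepSet (s : Set _)] :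
    ∑ A ∈ (Finset.univ : Finset (Finset (Fin m ⊕ (Fin a × Fin t)))).filter
        (fun s : Finset (Fin m ⊕ (Fin a × Fin t)) => (base m a t).IsIndepSet (s : Set _)),
        X ^ A.card * Y ^ ((m + a * t) - A.card) + Y ^ (m + a * t)
      = Y ^ (a * t) * (X + Y) ^ m + Y ^ (m + a * t - a) * (Y + t * X) ^ a := by
  classical
  set F1 : Finset (Finset (Fin m ⊕ (Fin a × Fin t))) := Finset.univ.filter (fun A => A.toRight = ∅) with hF1
  set F2 : Finset (Finset (Fin m ⊕ (Fin a × Fin t))) := Finset.univ.filter (fun A => A.toLeft = ∅ ∧ PT A.toRight) with hF2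
  have hU : (Finset.univ : Finset (Finset (Fin m ⊕ (Fin a × Fin t)))).filter
        (fun s : Finset (Fin m ⊕ (Fin a × Fin t)) => (base m a t).IsIndepSet (s : Set _)) = F1 ∪ F2 := by
    ext A
    simp only [hF1, hF2, Finset.mem_filter, Finset.mem_union, Finset.mem_univ, true_and, base_indep_iff]
  have hI : F1 ∩ F2 = {∅} := by
    ext A
    simp only [hF1, hF2, Finset.mem_filter, Finset.mem_inter, Finset.mem_univ, true_and, Finset.mem_singleton]
    constructor
    · rintro ⟨h1, h2, _⟩
      rw [← toLeft_disjSum_toRight (u := A), h1, h2]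
      simp
    · rintro rfl
      refine ⟨by ext x; simp, by ext x; simp, ?_⟩
      intro i p q hp
      simp at hp
  have hsum := Finset.sum_union_inter (s₁ := F1) (s₂ := F2)
    (f := fun A => X ^ A.card * Y ^ ((m + a * t) - A.card))
  rw [← hU, hI, Finset.sum_singleton] at hsum
  simp only [Finset.card_empty, pow_zero, one_mul, Nat.sub_zero] at hsum
  rw [hsum]
  congr 1
  · -- F1
    have e1 : Y ^ (a * t) * (X + Y) ^ m = ∑ C ∈ (Finset.univ : Finset (Fin m)).powerset,
        X ^ C.card * Y ^ (m + a * t - C.card) := by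
      have := Finset.sum_pow_mul_eq_add_pow X Y (Finset.univ : Finset (Fin m))
      simp only [Finset.card_univ, Fintype.card_fin] at this
      rw [← this, Finset.mul_sum]
      apply Finset.sum_congr rfl
      intro C hC
      have hc : C.card ≤ m := by simpa using Finset.card_le_univ C
      have : m + a * t - C.card = a * t + (m - C.card) := by omega
      rw [this, pow_add]
      ring
    rw [e1]
    refine Finset.sum_bij' (fun A _ => A.toLeft) (fun C _ => C.disjSum ∅) ?_ ?_ ?_ ?_ ?_
    · intro A _
      simp
    · intro C _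
      simp only [hF1, Finset.mem_filter, Finset.mem_univ, true_and, toRight_disjSum]
    · intro A hA
      simp only [hF1, Finset.mem_filter, Finset.mem_univ, true_and] at hA
      rw [← hA]
      exact toLeft_disjSum_toRight
    · intro C _
      simp only [toLeft_disjSum]
    · intro A hA
      simp only [hF1, Finset.mem_filter, Finset.mem_univ, true_and] at hA
      have := card_toLeft_add_card_toRight (u := A)
      rw [hA, Finset.card_empty, add_zero] at this
      rw [this]
  · -- F2
    have e2 : Y ^ (m + a * t - a) * (Y + t * X) ^ a =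
        ∑ C ∈ (Finset.univ : Finset (Finset (Fin a × Fin t))).filter PT,
        X ^ C.card * Y ^ (m + a * t - C.card) := by
      rw [← sum_PT, Finset.mul_sum]
      apply Finset.sum_congr rfl
      intro C hC
      have hc : C.card ≤ a := card_PT C (Finset.mem_filter.1 hC).2
      have hat : a ≤ a * t := Nat.le_mul_of_pos_right a ht
      have : m + a * t - C.card = (m + a * t - a) + (a - C.card) := by omega
      rw [this, pow_add]
      ring
    rw [e2]
    refine Finset.sum_bij' (fun A _ => A.toRight) (fun C _ => (∅ : Finset (Fin m)).disjSum C) ?_ ?_ ?_ ?_ ?_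
    · intro A hA
      simp only [hF2, Finset.mem_filter, Finset.mem_univ, true_and] at hA ⊢
      exact hA.2
    · intro C hC
      simp only [Finset.mem_filter, Finset.mem_univ, true_and] at hC
      simp only [hF2, Finset.mem_filter, Finset.mem_univ, true_and, toRight_disjSum, toLeft_disjSum, hC]
    · intro A hA
      simp only [hF2, Finset.mem_filter, Finset.mem_univ, true_and] at hA
      rw [← hA.1]
      exact toLeft_disjSum_toRight
    · intro C _
      simp only [toRight_disjSum]
    · intro A hA
      simp only [hF2, Finset.mem_filter, Finset.mem_univ, true_and] at hA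
      have := card_toLeft_add_card_toRight (u := A)
      rw [hA.1, Finset.card_empty, zero_add] at this
      rw [this]

/-- digits of a number in base B -/
lemma digit_extract (B : ℕ) (k : ℕ) : ∀ (N : ℕ) (S : ℕ → ℕ), (∀ i, S i < B) → k < N →
    (∑ i ∈ Finset.range N, S i * B ^ i) / B ^ k % B = S k := by
  induction k with
  | zero =>
    intro N S hS hN
    obtain ⟨N', rfl⟩ : ∃ N', N = N' + 1 := ⟨N - 1, by omega⟩
    rw [Finset.sum_range_succ']
    have : ∑ i ∈ Finset.range N', S (i + 1) * B ^ (i + 1) = B * ∑ i ∈ Finset.range N', S (i + 1) * B ^ i := by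
      rw [Finset.mul_sum]
      apply Finset.sum_congr rfl
      intro i _
      ring
    rw [this]
    simp only [pow_zero, mul_one, Nat.div_one]
    rw [Nat.mul_add_mod]
    exact Nat.mod_eq_of_lt (hS 0)
  | succ k ih =>
    intro N S hS hN
    obtain ⟨N', rfl⟩ : ∃ N', N = N' + 1 := ⟨N - 1, by omega⟩
    rw [Finset.sum_range_succ']
    have : ∑ i ∈ Finset.range N', S (i + 1) * B ^ (i + 1) = B * ∑ i ∈ Finset.range N', S (i + 1) * B ^ i := by
      rw [Finset.mul_sum]
      apply Finset.sum_congr rfl
      intro i _
      ring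
    rw [this, pow_succ', ← Nat.div_div_eq_div_mul]
    have hB : 0 < B := lt_of_le_of_lt (Nat.zero_le _) (hS 0)
    rw [pow_zero, mul_one, Nat.mul_add_div hB, Nat.div_eq_of_lt (hS 0), add_zero]
    exact ih N' (fun i => S (i + 1)) (fun i => hS _) (by omega)


/-- value at B of the independence polynomial of the corona of base m a t -/
def PB (m a t B : ℕ) : ℕ :=
  (B + 1) ^ (a * t) * (B + (B + 1)) ^ m + (B + 1) ^ (m + a * t - a) * (B + 1 + t * B) ^ a
        - (B + 1) ^ (m + a * t)

theorem numeric_one : PB 698 166 9 1 < 2 ^ 2608 := by decide +kernel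

theorem numeric_down : PB 698 166 9 (2 ^ 2608) / (2 ^ 2608) ^ 1177 % 2 ^ 2608 <
    PB 698 166 9 (2 ^ 2608) / (2 ^ 2608) ^ 1176 % 2 ^ 2608 := by
  decide +kernel

theorem numeric_up : PB 698 166 9 (2 ^ 2608) / (2 ^ 2608) ^ 1187 % 2 ^ 2608 <
    PB 698 166 9 (2 ^ 2608) / (2 ^ 2608) ^ 1188 % 2 ^ 2608 := by
  decide +kernel

lemma sum_cnt_general {V : Type} [Fintype V] (G : SimpleGraph V) (N : ℕ)
    [DecidablePred fun s : Finset V => G.IsIndepSet (s : Set V)]
    (hN : ∀ s : Finset V, G.IsIndepSet (s : Set V) → s.card < N) (B : ℕ) :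
    ∑ k ∈ Finset.range N, stableCount G k * B ^ k =
      ∑ s ∈ (Finset.univ : Finset (Finset V)).filter (fun s : Finset V => G.IsIndepSet (s : Set V)), B ^ s.card := by
  classical
  have hmaps : ∀ s ∈ (Finset.univ : Finset (Finset V)).filter
      (fun s : Finset V => G.IsIndepSet (s : Set V)), s.card ∈ Finset.range N := by
    intro s hs
    rw [Finset.mem_range]
    exact hN s (Finset.mem_filter.1 hs).2
  rw [← Finset.sum_fiberwise_of_maps_to hmaps]
  apply Finset.sum_congr rfl
  intro k _
  have : ∀ s ∈ ((Finset.univ : Finset (Finset V)).filter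
      (fun s : Finset V => G.IsIndepSet (s : Set V))).filter (fun s => s.card = k), B ^ s.card = B ^ k := by
    intro s hs
    rw [(Finset.mem_filter.1 hs).2]
  rw [Finset.sum_congr rfl this, Finset.sum_const, smul_eq_mul]
  congr 1
  rw [stableCount, ← Set.ncard_coe_finset]
  congr 1
  ext s
  simp

lemma corona_card_lt {W : Type} [Fintype W] (H : SimpleGraph W) (s : Finset (W ⊕ W))
    (hs : (corona H).IsIndepSet (s : Set (W ⊕ W))) : s.card < Fintype.card W + 1 := by
  classical
  have hd := ((indep_iff H s).1 hs).2
  rw [← card_toLeft_add_card_toRight, ← Finset.card_union_of_disjoint hd]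
  have := Finset.card_le_univ (s.toLeft ∪ s.toRight)
  omega

lemma cnt_sum_le {V : Type} [Fintype V] (G : SimpleGraph V) (N : ℕ)
    (hN : ∀ s : Finset V, G.IsIndepSet (s : Set V) → s.card < N) (k : ℕ) :
    stableCount G k ≤ ∑ k ∈ Finset.range N, stableCount G k := by
  by_cases hk : k < N
  · exact Finset.single_le_sum (f := stableCount G) (fun _ _ => Nat.zero_le _) (Finset.mem_range.2 hk)
  · have : stableCount G k = 0 := by
      rw [stableCount, Set.ncard_eq_zero (Set.toFinite _), Set.eq_empty_iff_forall_notMem]
      rintro s ⟨hs1, hs2⟩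
      have := hN s hs1
      omega
    rw [this]
    exact Nat.zero_le _

lemma card_base (m a t : ℕ) : Fintype.card (Fin m ⊕ (Fin a × Fin t)) = m + a * t := by
  simp

lemma sum_cnt_corona_base (m a t B : ℕ) (ht : 1 ≤ t) :
    ∑ k ∈ Finset.range (m + a * t + 1), stableCount (corona (base m a t)) k * B ^ k + (B + 1) ^ (m + a * t) =
      (B + 1) ^ (a * t) * (B + (B + 1)) ^ m + (B + 1) ^ (m + a * t - a) * (B + 1 + t * B) ^ a := by
  classical
  have hlt : ∀ s : Finset ((Fin m ⊕ (Fin a × Fin t)) ⊕ (Fin m ⊕ (Fin a × Fin t))),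
      (corona (base m a t)).IsIndepSet (s : Set _) → s.card < m + a * t + 1 := by
    intro s hs
    have := corona_card_lt _ s hs
    rw [card_base] at this
    exact this
  rw [sum_cnt_general (corona (base m a t)) (m + a * t + 1) hlt B, sum_corona, card_base]
  exact sum_base m a t B (B + 1) ht

lemma stableCount_corona_digit (m a t B : ℕ) (ht : 1 ≤ t)
    (hB : PB m a t 1 < B) (k : ℕ) (hk : k < m + a * t + 1) :
    stableCount (corona (base m a t)) k = PB m a t B / B ^ k % B := by
  have h1 := sum_cnt_corona_base m a t 1 ht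
  rw [PB] at hB ⊢
  simp only [one_pow, mul_one] at h1 hB
  have hlt : ∀ s : Finset ((Fin m ⊕ (Fin a × Fin t)) ⊕ (Fin m ⊕ (Fin a × Fin t))),
      (corona (base m a t)).IsIndepSet (s : Set _) → s.card < m + a * t + 1 := by
    intro s hs
    have := corona_card_lt _ s hs
    rw [card_base] at this
    exact this
  have hS : ∀ i, stableCount (corona (base m a t)) i < B := by
    intro i
    have h2 := cnt_sum_le (corona (base m a t)) (m + a * t + 1) hlt i
    omega
  have h3 := sum_cnt_corona_base m a t B ht
  rw [← h3, Nat.add_sub_cancel]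
  exact (digit_extract B k (m + a * t + 1) _ hS hk).symm

/-- There is a very well-covered graph whose sequence of stable set counts is not unimodal. -/
theorem result :
    ∃ (V : Type) (_ : Fintype V) (G : SimpleGraph V),
      VeryWellCovered G ∧ ¬ IsUnimodal (stableCount G) := by
  refine ⟨(Fin 698 ⊕ (Fin 166 × Fin 9)) ⊕ (Fin 698 ⊕ (Fin 166 × Fin 9)), inferInstance,
    corona (base 698 166 9), ⟨no_isolated _, ?_⟩, ?_⟩
  · intro s hs
    rw [card_maximal _ s hs.1 ?_, Fintype.card_sum (α := Fin 698 ⊕ (Fin 166 × Fin 9)), two_mul]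
    intro v hv hind
    have h1 : (corona (base 698 166 9)).IsIndepSet ((insert v s : Finset _) : Set _) := by
      rw [Finset.coe_insert]
      exact hind
    exact hv (hs.2 h1 (Finset.subset_insert v s) (Finset.mem_insert_self v s))
  · rintro ⟨m, hup, hdown⟩
    have h1 := numeric_down
    have h2 := numeric_up
    rw [← stableCount_corona_digit 698 166 9 (2 ^ 2608) (by norm_num) numeric_one 1176 (by norm_num),
      ← stableCount_corona_digit 698 166 9 (2 ^ 2608) (by norm_num) numeric_one 1177 (by norm_num)] at h1
    rw [← stableCount_corona_digit 698 166 9 (2 ^ 2608) (by norm_num) numeric_one 1187 (by norm_num),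
      ← stableCount_corona_digit 698 166 9 (2 ^ 2608) (by norm_num) numeric_one 1188 (by norm_num)] at h2
    have hm : ¬ 1176 < m := fun hm => absurd (hup 1176 hm) (not_le.2 h1)
    exact absurd (hdown 1187 (by omega)) (not_le.2 h2)

end Pool.Agent.Results.MP_b6d645_co.NotUnimodal
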